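import Pool.Graph.R_pool_sql_team_seeded_47a924f7.T6.H3.SA.C

/-!
Joint distribution of the first letter and of the number of descents on the permutations which strongly
avoid `321` and `1342`.
-/

set_option autoImplicit false

namespace Pool.Agent.KS6_13.SV

open Equiv Pool.Agent.T6.H3.SA

/-- the descents of a permutation of `ℕ` -/
def Ds (π : Perm ℕ) : Set ℕ := {i | π (i + 1) < π i}

lemma Ds_lt {n : ℕ} {π : Perm ℕ} (h : ∀ i, n ≤ i → π i = i) : ∀ i ∈ Ds π, i + 1 < n := by
  intro i hi
  have hl := low h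
  by_contra hc
  have h1 : π (i + 1) < π i := hi
  rw [h (i + 1) (by omega)] at h1
  rcases Nat.lt_or_ge i n with h2 | h2
  · have := hl i h2; omega
  · rw [h i h2] at h1; omega

lemma Ds_fin {n : ℕ} {π : Perm ℕ} (h : ∀ i, n ≤ i → π i = i) : (Ds π).Finite :=
  (Set.finite_Iio n).subset fun i hi => by
    have := Ds_lt h i hi
    show i < n
    omega

/-- the number of the descents -/
noncomputable def ds (π : Perm ℕ) : ℕ := (Ds π).ncard

lemma ds_app {n : ℕ} {σ : Perm ℕ} (h : ∀ i, n ≤ i → σ i = i) : ds (app n σ) = ds σ + 1 := by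
  have e : Ds (app n σ) = insert n (Ds σ) := by
    ext i
    simp only [Set.mem_insert_iff]
    have hl := low h
    constructor
    · intro hi
      have h1 : app n σ (i + 1) < app n σ i := hi
      rcases Nat.lt_trichotomy i n with h2 | h2 | h2
      · right
        show σ (i + 1) < σ i
        rcases Nat.lt_or_ge (i + 1) n with h3 | h3
        · rwa [app_lt h3, app_lt h2] at h1
        · exfalso
          have h4 : i + 1 = n := by omega
          rw [h4, app_n, app_lt h2, h _ (by omega)] at h1
          have := hl i h2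
          omega
      · exact Or.inl h2
      · exfalso
        rcases Nat.eq_or_lt_of_le (show n + 1 ≤ i by omega) with h3 | h3
        · rw [← h3, app_gt (by omega), app_n1, h _ (by omega), h _ le_rfl] at h1
          omega
        · rw [app_gt (by omega), app_gt h3, h _ (by omega), h _ (by omega)] at h1
          omega
    · rintro (rfl | hi)
      · show app i σ (i + 1) < app i σ i
        rw [app_n1, app_n, h _ le_rfl, h _ (by omega)]
        omega
      · have h2 := Ds_lt h i hi
        show app n σ (i + 1) < app n σ i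
        rw [app_lt h2, app_lt (by omega)]
        exact hi
  have h0 : n ∉ Ds σ := fun hn => by
    have := Ds_lt h n hn
    omega
  unfold ds
  rw [e, Set.ncard_insert_of_notMem h0 (Ds_fin h)]

lemma ds_rot {n k : ℕ} (hk : k ≤ n) (h1 : 1 ≤ k) (h2 : k < n) : ds (rot n k hk) = 1 := by
  have e : Ds (rot n k hk) = {n - k - 1} := by
    ext i
    simp only [Set.mem_singleton_iff]
    show rf n k (i + 1) < rf n k i ↔ _
    unfold rf
    split_ifs <;> omega
  unfold ds
  rw [e, Set.ncard_singleton]

lemma rot_zero {n k : ℕ} (hk : k ≤ n) (h2 : k < n) : rot n k hk 0 = k := by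
  show rf n k 0 = k
  unfold rf
  split_ifs <;> omega

lemma app_zero {n : ℕ} (hn : 1 ≤ n) (σ : Perm ℕ) : app n σ 0 = σ 0 := app_lt (by omega)

/-- the members of `S n` whose first letter and number of descents satisfy `p` -/
def T (n : ℕ) (p : ℕ → ℕ → Prop) : Set (Perm ℕ) := {π | π ∈ S n ∧ p (π 0) (ds π)}

lemma S_finite : ∀ n : ℕ, 1 ≤ n → (S n).Finite := by
  intro n hn
  obtain ⟨m, rfl⟩ : ∃ m, n = m + 1 := ⟨n - 1, by omega⟩
  exact (S_fin m).1

lemma T_fin {n : ℕ} (hn : 1 ≤ n) (p : ℕ → ℕ → Prop) : (T n p).Finite :=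
  (S_finite n hn).subset fun _ h => h.1

/-- the rotations with `p` -/
def RT (n : ℕ) (p : ℕ → ℕ → Prop) : Set (Perm ℕ) := {π | π ∈ R n ∧ p (π 0) (ds π)}

lemma RT_card (n : ℕ) (p : ℕ → ℕ → Prop) :
    (RT n p).ncard = {k : ℕ | 1 ≤ k ∧ k < n ∧ p k 1}.ncard := by
  have hfin : ∀ k : {k : ℕ | 1 ≤ k ∧ k < n ∧ p k 1}, (k : ℕ) ≤ n := fun k => k.2.2.1.le
  have e : RT n p = (fun π : Perm ℕ => π) '' RT n p := by simp
  have hinj : Set.InjOn (fun π : Perm ℕ => π 0) (RT n p) := by
    rintro _ ⟨⟨k, hk, h1, h2, rfl⟩, -⟩ _ ⟨⟨k', hk', h1', h2', rfl⟩, -⟩ h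
    have h' : rot n k hk 0 = rot n k' hk' 0 := h
    rw [rot_zero hk h2, rot_zero hk' h2'] at h'
    subst h'
    rfl
  have e2 : (fun π : Perm ℕ => π 0) '' RT n p = {k : ℕ | 1 ≤ k ∧ k < n ∧ p k 1} := by
    ext k
    constructor
    · rintro ⟨_, ⟨⟨k', hk', h1, h2, rfl⟩, h3⟩, h4⟩
      have h4' : rot n k' hk' 0 = k := h4
      rw [rot_zero hk' h2] at h4'
      subst h4'
      rw [rot_zero hk' h2, ds_rot hk' h1 h2] at h3
      exact ⟨h1, h2, h3⟩
    · rintro ⟨h1, h2, h3⟩
      refine ⟨rot n k h2.le, ⟨⟨k, h2.le, h1, h2, rfl⟩, ?_⟩, rot_zero h2.le h2⟩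
      rw [rot_zero h2.le h2, ds_rot h2.le h1 h2]
      exact h3
  rw [← e2, hinj.ncard_image]

/-- the recursion, for every predicate of the first letter and the number of descents -/
theorem T_rec {n : ℕ} (hn : 1 ≤ n) (p : ℕ → ℕ → Prop) :
    (T (n + 2) p).ncard = (T (n + 1) p).ncard + ((T n fun a b => p a (b + 1)).ncard +
      {k : ℕ | 1 ≤ k ∧ k < n + 2 ∧ p k 1}.ncard) := by
  have e : T (n + 2) p = T (n + 1) p ∪ (app n '' (T n fun a b => p a (b + 1)) ∪ RT (n + 2) p) := by
    ext π
    constructor
    · rintro ⟨h1, h2⟩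
      rw [S_succ n hn] at h1
      rcases h1 with h1 | ⟨σ, hσ, rfl⟩ | h1
      · exact Or.inl ⟨h1, h2⟩
      · refine Or.inr (Or.inl ⟨σ, ⟨hσ, ?_⟩, rfl⟩)
        rw [app_zero hn, ds_app hσ.1] at h2
        exact h2
      · exact Or.inr (Or.inr ⟨h1, h2⟩)
    · rintro (⟨h1, h2⟩ | ⟨σ, ⟨hσ, h2⟩, rfl⟩ | ⟨h1, h2⟩)
      · exact ⟨by rw [S_succ n hn]; exact Or.inl h1, h2⟩
      · refine ⟨by rw [S_succ n hn]; exact Or.inr (Or.inl ⟨σ, hσ, rfl⟩), ?_⟩
        rw [app_zero hn, ds_app hσ.1]
        exact h2
      · exact ⟨by rw [S_succ n hn]; exact Or.inr (Or.inr h1), h2⟩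
  have d1 : Disjoint (T (n + 1) p) (app n '' (T n fun a b => p a (b + 1)) ∪ RT (n + 2) p) := by
    refine Set.disjoint_union_right.2 ⟨?_, ?_⟩
    · exact Set.disjoint_of_subset (fun _ h => h.1) (Set.image_mono fun _ h => h.1) (S_app_disj n)
    · exact Set.disjoint_of_subset (fun _ h => h.1) (fun _ h => h.1) (S_R_disj n)
  have d2 : Disjoint (app n '' (T n fun a b => p a (b + 1))) (RT (n + 2) p) :=
    Set.disjoint_of_subset (Set.image_mono fun _ h => h.1) (fun _ h => h.1) (app_disj n hn)
  have f1 := T_fin (n := n + 1) (by omega) p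
  have f2 := (T_fin hn fun a b => p a (b + 1)).image (app n)
  have f3 : (RT (n + 2) p).Finite := (R_fin (n + 2)).subset fun _ h => h.1
  rw [e, Set.ncard_union_eq d1 f1 (f2.union f3), Set.ncard_union_eq d2 f2 f3,
    Set.ncard_image_of_injective _ (app_inj n), RT_card]

lemma ds_one : ds 1 = 0 := by
  have : Ds 1 = ∅ := by
    ext i
    simp [Ds]
  unfold ds
  rw [this, Set.ncard_empty]

lemma T_one (p : ℕ → ℕ → Prop) (h : p 0 0) : (T 1 p).ncard = 1 := by
  have : T 1 p = {1} := by
    ext π
    simp only [Set.mem_singleton_iff]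
    constructor
    · rintro ⟨h1, -⟩
      rw [S_one] at h1
      exact h1
    · rintro rfl
      exact ⟨by rw [S_one]; rfl, by rw [ds_one]; exact h⟩
  rw [this, Set.ncard_singleton]

lemma T_one' (p : ℕ → ℕ → Prop) (h : ¬ p 0 0) : (T 1 p).ncard = 0 := by
  have : T 1 p = ∅ := by
    ext π
    simp only [Set.mem_empty_iff_false, iff_false]
    rintro ⟨h1, h2⟩
    rw [S_one] at h1
    have : π = 1 := h1
    subst this
    rw [ds_one] at h2
    exact h h2
  rw [this, Set.ncard_empty]

theorem T_two (p : ℕ → ℕ → Prop) :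
    (T 2 p).ncard = (T 1 p).ncard + {k : ℕ | 1 ≤ k ∧ k < 2 ∧ p k 1}.ncard := by
  have e : T 2 p = T 1 p ∪ RT 2 p := by
    ext π
    constructor
    · rintro ⟨h1, h2⟩
      rw [S_two] at h1
      rcases h1 with h1 | h1
      · exact Or.inl ⟨h1, h2⟩
      · exact Or.inr ⟨h1, h2⟩
    · rintro (⟨h1, h2⟩ | ⟨h1, h2⟩)
      · exact ⟨by rw [S_two]; exact Or.inl h1, h2⟩
      · exact ⟨by rw [S_two]; exact Or.inr h1, h2⟩
  rw [e, Set.ncard_union_eq (Set.disjoint_of_subset (fun _ h => h.1) (fun _ h => h.1) (S_R_disj 0))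
    (T_fin le_rfl p) ((R_fin 2).subset fun _ h => h.1), RT_card]

/-! ### The joint distribution -/

/-- the joint numbers -/
def c (n j d : ℕ) : ℕ :=
  if j = 0 then (n - 1 - d).choose d else if d = 0 then 0 else (n + 1 - j - d).choose d

lemma cnt1 (n j d : ℕ) : {k : ℕ | 1 ≤ k ∧ k < n ∧ (k = j ∧ 1 = d)}.ncard =
    if 1 ≤ j ∧ j < n ∧ d = 1 then 1 else 0 := by
  split_ifs with h
  · have : {k : ℕ | 1 ≤ k ∧ k < n ∧ (k = j ∧ 1 = d)} = {j} := by
      ext k
      simp only [Set.mem_setOf_eq, Set.mem_singleton_iff]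
      omega
    rw [this, Set.ncard_singleton]
  · have : {k : ℕ | 1 ≤ k ∧ k < n ∧ (k = j ∧ 1 = d)} = ∅ := by
      ext k
      simp only [Set.mem_setOf_eq, Set.mem_empty_iff_false, iff_false]
      omega
    rw [this, Set.ncard_empty]

theorem joint (n : ℕ) : (∀ j d, (T (n + 1) fun a b => a = j ∧ b = d).ncard = c (n + 1) j d) ∧
    ∀ j d, (T (n + 2) fun a b => a = j ∧ b = d).ncard = c (n + 2) j d := by
  induction n with
  | zero =>
    have h1 : ∀ j d, (T 1 fun a b => a = j ∧ b = d).ncard = c 1 j d := by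
      intro j d
      by_cases h : 0 = j ∧ 0 = d
      · rw [T_one _ h]
        obtain ⟨rfl, rfl⟩ := h
        rfl
      · rw [T_one' _ h]
        unfold c
        rcases Nat.eq_zero_or_pos j with hj | hj
        · rw [if_pos hj, Nat.choose_eq_zero_of_lt (by omega)]
        · rw [if_neg (by omega)]
          rcases Nat.eq_zero_or_pos d with hd | hd
          · rw [if_pos hd]
          · rw [if_neg (by omega), Nat.choose_eq_zero_of_lt (by omega)]
    refine ⟨h1, fun j d => ?_⟩
    rw [show 0 + 2 = 2 from rfl, T_two, h1, cnt1]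
    unfold c
    rcases Nat.eq_zero_or_pos j with hj | hj
    · rw [if_pos hj, if_pos hj, if_neg (by omega)]
      rcases Nat.eq_zero_or_pos d with hd | hd
      · subst hd; simp
      · rw [Nat.choose_eq_zero_of_lt (by omega), Nat.choose_eq_zero_of_lt (by omega)]
    · rw [if_neg (show ¬ j = 0 by omega), if_neg (show ¬ j = 0 by omega)]
      rcases Nat.eq_zero_or_pos d with hd | hd
      · rw [if_pos hd, if_neg (by omega), if_pos hd]
      · rw [if_neg (show ¬ d = 0 by omega), if_neg (show ¬ d = 0 by omega)]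
        by_cases h : j = 1 ∧ d = 1
        · obtain ⟨rfl, rfl⟩ := h
          simp
        · rw [Nat.choose_eq_zero_of_lt (by omega), Nat.choose_eq_zero_of_lt (by omega),
            if_neg (by omega)]
  | succ n ih =>
    refine ⟨ih.2, fun j d => ?_⟩
    have hr := T_rec (n := n + 1) (by omega) (fun a b => a = j ∧ b = d)
    rw [show n + 1 + 2 = n + 3 from rfl] at hr ⊢
    rw [hr, show n + 1 + 1 = n + 2 from rfl, ih.2, cnt1]
    rcases d with _ | d
    · have h0 : (T (n + 1) fun a b => a = j ∧ b + 1 = 0).ncard = 0 := by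
        have : (T (n + 1) fun a b => a = j ∧ b + 1 = 0) = ∅ := by
          ext π
          simp only [Set.mem_empty_iff_false, iff_false]
          rintro ⟨-, -, h⟩
          omega
        rw [this, Set.ncard_empty]
      rw [h0, if_neg (by omega)]
      unfold c
      split_ifs <;> simp
    · have e0 : (fun a b : ℕ => a = j ∧ b + 1 = d + 1) = fun a b => a = j ∧ b = d := by
        funext a b
        simp
      rw [e0, ih.1]
      unfold c
      rcases Nat.eq_zero_or_pos j with hj | hj
      · rw [if_pos hj, if_pos hj, if_pos hj, if_neg (by omega)]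
        rcases Nat.lt_or_ge n d with h | h
        · rw [Nat.choose_eq_zero_of_lt (by omega), Nat.choose_eq_zero_of_lt (by omega),
            Nat.choose_eq_zero_of_lt (by omega)]
        · rcases Nat.eq_or_lt_of_le h with h' | h'
          · rw [show n + 3 - 1 - (d + 1) = (n - d) + 1 by omega, Nat.choose_succ_succ',
              show n + 2 - 1 - (d + 1) = n - d by omega, show n + 1 - 1 - d = n - d by omega]
            omega
          · rw [show n + 3 - 1 - (d + 1) = (n - d) + 1 by omega, Nat.choose_succ_succ',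
              show n + 2 - 1 - (d + 1) = n - d by omega, show n + 1 - 1 - d = n - d by omega]
            omega
      · rw [if_neg (show ¬ j = 0 by omega), if_neg (show ¬ j = 0 by omega),
          if_neg (show ¬ j = 0 by omega), if_neg (show ¬ d + 1 = 0 by omega),
          if_neg (show ¬ d + 1 = 0 by omega)]
        rcases d with _ | d
        · rw [if_pos rfl]
          simp only [zero_add, Nat.choose_one_right]
          by_cases h3 : j < n + 3
          · rw [if_pos ⟨hj, h3, trivial⟩]; omega
          · rw [if_neg (fun h => h3 h.2.1)]; omega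
        · rw [if_neg (by omega), if_neg (by omega)]
          rcases Nat.lt_or_ge (n + 1) (j + d) with h | h
          · rw [Nat.choose_eq_zero_of_lt (by omega), Nat.choose_eq_zero_of_lt (by omega),
              Nat.choose_eq_zero_of_lt (by omega)]
          · rw [show n + 3 + 1 - j - (d + 1 + 1) = (n + 1 - j - d) + 1 by omega,
              Nat.choose_succ_succ', show n + 2 + 1 - j - (d + 1 + 1) = n + 1 - j - d by omega,
              show n + 1 + 1 - j - (d + 1) = n + 1 - j - d by omega]
            omega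

/-! ### The first letter -/

lemma cnt2 (n j : ℕ) : {k : ℕ | 1 ≤ k ∧ k < n ∧ k = j}.ncard = if 1 ≤ j ∧ j < n then 1 else 0 := by
  split_ifs with h
  · have : {k : ℕ | 1 ≤ k ∧ k < n ∧ k = j} = {j} := by
      ext k
      simp only [Set.mem_setOf_eq, Set.mem_singleton_iff]
      omega
    rw [this, Set.ncard_singleton]
  · have : {k : ℕ | 1 ≤ k ∧ k < n ∧ k = j} = ∅ := by
      ext k
      simp only [Set.mem_setOf_eq, Set.mem_empty_iff_false, iff_false]
      omega
    rw [this, Set.ncard_empty]

/-- the numbers for the first letter -/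
def fl (n j : ℕ) : ℕ := if j = 0 then Nat.fib n else Nat.fib (n + 2 - j) - 1

theorem first (n : ℕ) : (∀ j < n + 1, (T (n + 1) fun a _ => a = j).ncard = fl (n + 1) j) ∧
    (∀ j, n + 1 ≤ j → (T (n + 1) fun a _ => a = j).ncard = 0) ∧
    (∀ j < n + 2, (T (n + 2) fun a _ => a = j).ncard = fl (n + 2) j) ∧
    ∀ j, n + 2 ≤ j → (T (n + 2) fun a _ => a = j).ncard = 0 := by
  have hz : ∀ m, 1 ≤ m → ∀ j, m ≤ j → (T m fun a _ => a = j).ncard = 0 := by
    intro m hm j hj
    have : (T m fun a _ => a = j) = ∅ := by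
      ext π
      simp only [Set.mem_empty_iff_false, iff_false]
      rintro ⟨h1, h2⟩
      have := low h1.1 0 (by omega)
      omega
    rw [this, Set.ncard_empty]
  induction n with
  | zero =>
    have h1 : ∀ j < 1, (T 1 fun a _ => a = j).ncard = fl 1 j := by
      intro j hj
      have : j = 0 := by omega
      subst this
      rw [T_one (fun a _ => a = 0) rfl]; rfl
    refine ⟨h1, hz 1 le_rfl, fun j hj => ?_, hz 2 (by omega)⟩
    rw [show 0 + 2 = 2 from rfl, T_two, cnt2]
    rcases Nat.eq_zero_or_pos j with h | h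
    · subst h
      rw [h1 0 (by omega)]; rfl
    · have : j = 1 := by omega
      subst this
      rw [hz 1 le_rfl 1 le_rfl]; rfl
  | succ n ih =>
    obtain ⟨i1, i2, i3, i4⟩ := ih
    refine ⟨i3, i4, fun j hj => ?_, hz _ (by omega)⟩
    have hr := T_rec (n := n + 1) (by omega) (fun a _ => a = j)
    rw [show n + 1 + 2 = n + 3 from rfl] at hr ⊢
    rw [hr, show n + 1 + 1 = n + 2 from rfl, cnt2]
    rcases Nat.eq_zero_or_pos j with h | h
    · subst h
      rw [i1 0 (by omega), i3 0 (by omega), if_neg (by omega)]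
      simp only [fl, if_true]
      have : Nat.fib (n + 3) = Nat.fib (n + 1) + Nat.fib (n + 2) := Nat.fib_add_two
      omega
    · rw [if_pos ⟨h, by omega⟩]
      unfold fl
      rw [if_neg (by omega)]
      rcases Nat.lt_trichotomy j (n + 1) with h' | h' | h'
      · rw [i1 j h', i3 j (by omega)]
        unfold fl
        rw [if_neg (by omega), if_neg (by omega)]
        obtain ⟨m, hm⟩ : ∃ m, n + 1 + 2 - j = m + 2 := ⟨n + 1 - j, by omega⟩
        rw [show n + 3 + 2 - j = m + 4 by omega, show n + 2 + 2 - j = m + 3 by omega, hm]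
        have e1 : Nat.fib (m + 4) = Nat.fib (m + 2) + Nat.fib (m + 3) := Nat.fib_add_two
        have e2 : 0 < Nat.fib (m + 2) := Nat.fib_pos.2 (by omega)
        have e3 : 0 < Nat.fib (m + 3) := Nat.fib_pos.2 (by omega)
        omega
      · subst h'
        rw [i2 _ le_rfl, i3 _ (by omega)]
        unfold fl
        rw [if_neg (by omega), show n + 2 + 2 - (n + 1) = 3 by omega,
          show n + 3 + 2 - (n + 1) = 4 by omega]
        rfl
      · have : j = n + 2 := by omega
        subst this
        rw [i2 _ (by omega), i4 _ le_rfl, show n + 3 + 2 - (n + 2) = 3 by omega]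
        rfl

/-! ### The descents -/

lemma cnt3 (n d : ℕ) : {k : ℕ | 1 ≤ k ∧ k < n ∧ 1 = d}.ncard = if d = 1 then n - 1 else 0 := by
  split_ifs with h
  · have : {k : ℕ | 1 ≤ k ∧ k < n ∧ 1 = d} = (Finset.Ico 1 n : Finset ℕ) := by
      ext k
      simp only [Set.mem_setOf_eq, Finset.coe_Ico, Set.mem_Ico]
      omega
    rw [this, Set.ncard_coe_finset, Nat.card_Ico]
  · have : {k : ℕ | 1 ≤ k ∧ k < n ∧ 1 = d} = ∅ := by
      ext k
      simp only [Set.mem_setOf_eq, Set.mem_empty_iff_false, iff_false]
      omega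
    rw [this, Set.ncard_empty]

/-- the numbers for the descents -/
def de (n d : ℕ) : ℕ := if d = 0 then 1 else (n - 1 - d).choose d + (n + 1 - d).choose (d + 1)

theorem descents (n : ℕ) : (∀ d, (T (n + 1) fun _ b => b = d).ncard = de (n + 1) d) ∧
    ∀ d, (T (n + 2) fun _ b => b = d).ncard = de (n + 2) d := by
  induction n with
  | zero =>
    have h1 : ∀ d, (T 1 fun _ b => b = d).ncard = de 1 d := by
      intro d
      rcases d with _ | d
      · rw [T_one (fun _ b => b = 0) rfl]; rfl
      · rw [T_one' (fun _ b => b = d + 1) (by omega)]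
        unfold de
        rw [if_neg (by omega), Nat.choose_eq_zero_of_lt (by omega), Nat.choose_eq_zero_of_lt (by omega)]
    refine ⟨h1, fun d => ?_⟩
    rw [show 0 + 2 = 2 from rfl, T_two, h1, cnt3]
    rcases d with _ | _ | d
    · rfl
    · rfl
    · unfold de
      rw [if_neg (by omega), if_neg (by omega), if_neg (by omega),
        Nat.choose_eq_zero_of_lt (by omega), Nat.choose_eq_zero_of_lt (by omega),
        Nat.choose_eq_zero_of_lt (by omega), Nat.choose_eq_zero_of_lt (by omega)]
  | succ n ih =>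
    refine ⟨ih.2, fun d => ?_⟩
    have hr := T_rec (n := n + 1) (by omega) (fun _ b => b = d)
    rw [show n + 1 + 2 = n + 3 from rfl] at hr ⊢
    rw [hr, show n + 1 + 1 = n + 2 from rfl, ih.2, cnt3]
    rcases d with _ | d
    · have h0 : (T (n + 1) fun _ b => b + 1 = 0).ncard = 0 := by
        have : (T (n + 1) fun _ b => b + 1 = 0) = ∅ := by
          ext π
          simp only [Set.mem_empty_iff_false, iff_false]
          rintro ⟨-, h⟩
          omega
        rw [this, Set.ncard_empty]
      rw [h0]; rfl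
    · have e0 : (fun _ b : ℕ => b + 1 = d + 1) = fun _ b : ℕ => b = d := by
        funext a b
        simp
      rw [e0, ih.1]
      rcases d with _ | d
      · have d0 : de (n + 1) 0 = 1 := rfl
        have d1 : ∀ m, de m 1 = (m - 1 - 1) + m.choose 2 := by
          intro m
          unfold de
          rw [if_neg (by omega), Nat.choose_one_right]
          rfl
        rw [d0, show 0 + 1 = 1 from rfl, d1, d1, if_pos rfl]
        have := Nat.choose_succ_succ' (n + 2) 1
        rw [Nat.choose_one_right] at this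
        have h2 : (n + 3).choose 2 = (n + 2) + (n + 2).choose 2 := this
        omega
      · unfold de
        rw [if_neg (by omega), if_neg (by omega), if_neg (by omega), if_neg (by omega)]
        have p1 : (n + 3 - 1 - (d + 1 + 1)).choose (d + 1 + 1) =
            (n + 2 - 1 - (d + 1 + 1)).choose (d + 1 + 1) + (n + 1 - 1 - (d + 1)).choose (d + 1) := by
          rcases Nat.lt_or_ge n (d + 1) with h | h
          · rw [Nat.choose_eq_zero_of_lt (by omega), Nat.choose_eq_zero_of_lt (by omega),
              Nat.choose_eq_zero_of_lt (by omega)]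
          · rw [show n + 3 - 1 - (d + 1 + 1) = (n - (d + 1)) + 1 by omega, Nat.choose_succ_succ',
              show n + 2 - 1 - (d + 1 + 1) = n - (d + 1) by omega,
              show n + 1 - 1 - (d + 1) = n - (d + 1) by omega]
            omega
        have p2 : (n + 3 + 1 - (d + 1 + 1)).choose (d + 1 + 1 + 1) =
            (n + 2 + 1 - (d + 1 + 1)).choose (d + 1 + 1 + 1) +
              (n + 1 + 1 - (d + 1)).choose (d + 1 + 1) := by
          rcases Nat.lt_or_ge (n + 1) d with h | h
          · rw [Nat.choose_eq_zero_of_lt (by omega), Nat.choose_eq_zero_of_lt (by omega),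
              Nat.choose_eq_zero_of_lt (by omega)]
          · rw [show n + 3 + 1 - (d + 1 + 1) = (n + 1 - d) + 1 by omega,
              Nat.choose_succ_succ' (n + 1 - d) (d + 1 + 1),
              show n + 2 + 1 - (d + 1 + 1) = n + 1 - d by omega,
              show n + 1 + 1 - (d + 1) = n + 1 - d by omega]
            exact Nat.add_comm _ _
        rw [p1, p2]
        omega

end Pool.Agent.KS6_13.SV
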